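import Pool.Agent.H93.CT.Stmts

/-!
Extensions of conditions of large height; dependent choice with a counter.
-/

set_option linter.unusedVariables false
set_option synthInstance.maxSize 100000

namespace SW

/-- dependent choice with a counter -/
theorem exh_dcn (hD : DCXStmt) (M : Type) [SetStr M] [ZFC M] (X x0 : M) (R : M → M → M → Prop)
    (hR : Cl3 R) (hx0 : E x0 X)
    (h : ∀ n x, E n om → E x X → ∃ y, E y X ∧ R n x y) :
    ∃ f, app f emp = x0 ∧ ∀ n, E n om → E (app f n) X ∧ R n (app f n) (app f (suc n)) := by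
  have hRc : Cl2 (fun u v : M => ∃ n x y : M, u = opair n x ∧ v = opair (suc n) y ∧ R n x y) := by
    have : Df (fun w : Fin 5 → M => R (w 2) (w 1) (w 0)) := hR.ren ![2, 1, 0]
    infer_instance
  obtain ⟨F, hF0, hF⟩ := hD M (prod om X) (opair emp x0)
    (fun u v => ∃ n x y : M, u = opair n x ∧ v = opair (suc n) y ∧ R n x y) hRc
    (by rw [mem_prod]; exact ⟨emp_mem_om, hx0⟩) (by
      intro u hu
      obtain ⟨n, x, hn, hx, rfl⟩ := mem_prod'.1 hu
      obtain ⟨y, hy, hr⟩ := h n x hn hx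
      exact ⟨opair (suc n) y, by rw [mem_prod]; exact ⟨suc_mem_om hn, hy⟩, n, x, y, rfl, rfl, hr⟩)
  have hFn : ∀ n, E n om → ∃ x, E x X ∧ app F n = opair n x := by
    refine om_ind (C := fun n : M => ∃ x : M, E x X ∧ app F n = opair n x) inferInstance ?_ ?_
    · exact ⟨x0, hx0, hF0⟩
    · rintro n hn ⟨x, hx, hx'⟩
      obtain ⟨h1, n', x', y, h2, h3, h4⟩ := hF n hn
      rw [hx', opair_inj] at h2
      obtain ⟨rfl, rfl⟩ := h2
      have h5 := (hF (suc n) (suc_mem_om hn)).1
      rw [h3, mem_prod] at h5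
      exact ⟨y, h5.2, h3⟩
  have hfd : Fn1 (fun n : M => the (fun x => app F n = opair n x)) := by infer_instance
  have hval : ∀ n x, E n om → app F n = opair n x →
      app (gr om (fun n : M => the (fun x => app F n = opair n x))) n = x := by
    intro n x hn hx
    rw [app_gr hfd hn]
    refine the_eq hx fun z hz => ?_
    rw [hx, opair_inj] at hz
    exact hz.2.symm
  refine ⟨gr om (fun n : M => the (fun x => app F n = opair n x)), hval emp x0 emp_mem_om hF0, ?_⟩
  intro n hn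
  obtain ⟨x, hx, hx'⟩ := hFn n hn
  obtain ⟨h1, n', x', y, h2, h3, h4⟩ := hF n hn
  rw [hx', opair_inj] at h2
  obtain ⟨rfl, rfl⟩ := h2
  rw [hval n x hn hx', hval (suc n) y (suc_mem_om hn) h3]
  exact ⟨hx, h4⟩

theorem ct_exh (hD : DCXStmt) (hWF : WFStmt) (hC : CFXStmt) (hU : UNIStmt) (hE : EXTStmt) :
    EXHStmt := by
  intro M _ _ w Z I p c hB hI hp hc
  have hW := hWF M w hB.w1
  have hCF := hC M w Z I hB
  have key : ∀ c : M, E c w → ∀ p : M, E p (PQ w Z I) →
      ∃ q a : M, Cnd w Z I a q ∧ Sub p q ∧ E c a := by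
    refine mem_induction (C := fun c : M => E c w → ∀ p : M, E p (PQ w Z I) →
      ∃ q a : M, Cnd w Z I a q ∧ Sub p q ∧ E c a) inferInstance ?_
    intro c ih hc p hp
    obtain ⟨f, hf1, hf2⟩ := hB.w1.2.2 c hc
    obtain ⟨s, hs0, hs⟩ := exh_dcn hD M (PQ w Z I) p
      (fun n x y => Sub x y ∧ ∀ b : M, E b c → E (opair b n) f →
        ∃ a : M, Cnd w Z I a y ∧ E b a) inferInstance hp (by
        intro n x hn hx
        by_cases h : ∃ b, E b c ∧ E (opair b n) f
        · obtain ⟨b, hb, hbn⟩ := h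
          obtain ⟨q, a, hq, hxq, hba⟩ := ih b hb (hB.w1.1.trans hc hb) x hx
          refine ⟨q, hCF.mem.2 ⟨a, hq⟩, hxq, ?_⟩
          intro b' hb' hbn'
          rw [hf2 b' b n hb' hb hn hbn' hbn]
          exact ⟨a, hq, hba⟩
        · exact ⟨x, hx, Sub.refl x, fun b hb hbn => absurd ⟨b, hb, hbn⟩ h⟩)
    obtain ⟨a, ha, hsa⟩ := hU M w Z I s hB hI (fun n hn => ⟨(hs n hn).1, (hs n hn).2.1⟩)
    obtain ⟨q, t, hq, hsq, -⟩ := hE M w Z I a (uq s) emp hB hI ha
      (fun z hz => absurd hz (not_mem_emp z))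
    refine ⟨q, suc a, hq, ?_, ?_⟩
    · have := (hsa emp emp_mem_om).1
      rw [hs0] at this
      exact this.trans hsq
    · have hco := hW.ord hc
      have hao := (hCF.ht ha).2
      rw [mem_suc]
      refine (hco.sub_iff hao).1 fun b hb => ?_
      obtain ⟨n, hn, hbn⟩ := hf1 b hb
      obtain ⟨a', ha', hba'⟩ := (hs n hn).2.2 b hb hbn
      exact (hsa (suc n) (suc_mem_om hn)).2 a' ha' b hba'
  exact key c hc p hp

end SW
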