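import Pool.Agent.H93.CT.Stmts

/-!
Active rows above a given countable ordinal.
-/

set_option linter.unusedVariables false
set_option synthInstance.maxSize 100000

namespace SW

section
variable {M : Type} [SetStr M] [ZF M]

/-- the empty name with the empty promise is in row `emp` of every column -/
theorem exk_base {w Z I a p K : M} (hCF : CFacts w Z I) (h : Cnd w Z I a p) (hK : E K I)
    (hcol : Col p K) (ha : a ≠ emp) : Act p K emp := by
  obtain ⟨-, hao⟩ := hCF.ht h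
  obtain ⟨x, hx⟩ := hCF.full h hcol (emp_mem_ord hao ha)
  have h2 := (h.2.2 K hK).2.1 x hx
  refine ⟨emp, emp, x, hx, ?_⟩
  rw [h2, mem_sing]

/-- a condition of successor height has a last active row -/
theorem exk_last {w Z I a p K : M} (hCF : CFacts w Z I) (h : Cnd w Z I (suc a) p) (hK : E K I)
    (hcol : Col p K) : ∃ c, E c (suc a) ∧ Act p K c ∧ ∀ b, Act p K b → Sub b c := by
  have hao := (hCF.ht h).2
  have hin : ∀ b, Act p K b → E b (suc a) := by
    rintro b ⟨v, F, x, hx, -⟩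
    exact (hCF.row h hx).1
  have hord : ∀ b, Act p K b → Ord b := fun b hb => hao.mem (hin b hb)
  have hA : ∀ b, E b (sep (suc a) (fun b => Act p K b)) ↔ Act p K b := by
    intro b
    rw [mem_sep]
    exact ⟨fun h => h.2, fun h => ⟨hin b h, h⟩⟩
  set s := sUn (sep (suc a) (fun b => Act p K b)) with hs
  have hso : Ord s := Ord_sUn fun y hy => hord y ((hA y).1 hy)
  have hsub : ∀ b, Act p K b → Sub b s := fun b hb => sub_sUn ((hA b).2 hb)
  have hsa : E s (suc a) := by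
    rw [mem_suc]
    refine (hso.sub_iff (hao.mem (by simp : E a (suc a)))).1 ?_
    intro x hx
    rw [hs, mem_sUn] at hx
    obtain ⟨y, hy, hx⟩ := hx
    have h1 := hin y ((hA y).1 hy)
    rw [mem_suc] at h1
    rcases h1 with h1 | rfl
    · exact (hao.mem (by simp : E a (suc a))).trans h1 hx
    · exact hx
  refine ⟨s, hsa, ?_, hsub⟩
  by_contra hna
  obtain ⟨x, hx⟩ := hCF.full h hcol hsa
  by_cases h0 : s = emp
  · apply hna
    rw [h0]
    exact exk_base hCF h hK hcol (suc_ne_emp a)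
  · refine hna ((h.2.2 K hK).2.2.2.2.2.2.2 s x hx h0 ?_)
    intro c hc
    rw [hs, mem_sUn] at hc
    obtain ⟨d, hd, hcd⟩ := hc
    have hd' := (hA d).1 hd
    refine ⟨d, ?_, hcd, hd'⟩
    rcases ((hord d hd').sub_iff hso).1 (hsub d hd') with h1 | h1
    · exact h1
    · exact absurd (h1 ▸ hd') hna

theorem exk_up {p q K b : M} (h : Sub p q) (ha : Act p K b) : Act q K b := by
  obtain ⟨v, F, x, hx, hv⟩ := ha
  exact ⟨v, F, x, h _ hx, hv⟩

end

theorem ct_exk (hC : CFXStmt) (hH : EXHStmt) (hE : EXTStmt) (hCl : CLMStmt) (hS : SPLStmt)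
    (hR : SPRStmt) : EXKStmt := by
  intro M _ _ w Z I p K c hB hI hp hK hD hc
  have hCF := hC M w Z I hB
  obtain ⟨q1, a1, hq1, hpq1, hca1⟩ := hH M w Z I p c hB hI hp hc
  have ha1 : a1 ≠ emp := by
    rintro rfl
    exact not_mem_emp _ hca1
  have h2 : ∃ q2, Cnd w Z I a1 q2 ∧ Sub q1 q2 ∧ Col q2 K := by
    by_cases h : Col q1 K
    · exact ⟨q1, hq1, Sub.refl _, h⟩
    · exact hCl M w Z I a1 q1 K hB hI hq1 ha1 hK
  obtain ⟨q2, hq2, h12, hcol2⟩ := h2
  obtain ⟨q3, t3, hq3, h23, -⟩ := hE M w Z I a1 q2 emp hB hI hq2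
    (fun z hz => absurd hz (not_mem_emp z))
  have hcol3 : Col q3 K := by
    obtain ⟨b, x, h⟩ := hcol2
    exact ⟨b, x, h23 _ h⟩
  obtain ⟨c', hc', hact, hlast⟩ := exk_last hCF hq3 hK hcol3
  obtain ⟨q4, hq4, h34, hspl⟩ := hS M w Z I (suc a1) q3 K c' hB hI hq3 hK hD hc'
  obtain ⟨a4, ha4⟩ := hCF.mem.1 hq4
  have hsub4 : Sub (suc a1) a4 := hCF.hmono hq3 ha4 h34
  obtain ⟨q5, t5, hq5, h45, -⟩ := hE M w Z I a4 q4 emp hB hI ha4
    (fun z hz => absurd hz (not_mem_emp z))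
  have h5 : Sub p q5 := (((hpq1.trans h12).trans h23).trans h34).trans h45
  have h35 : Sub q3 q5 := h34.trans h45
  have h5P : E q5 (PQ w Z I) := hCF.mem.2 ⟨_, hq5⟩
  by_cases hA : ∃ b, Act q5 K b ∧ ¬ E b (suc a1)
  · obtain ⟨b, hb, hb'⟩ := hA
    obtain ⟨v, F, x, hx, hv⟩ := hb
    have hbo : Ord b := (hCF.ht hq5).2.mem (hCF.row hq5 hx).1
    have h6 := (hbo.not_mem_iff (hCF.ht hq3).2).1 hb'
    exact ⟨q5, b, h5P, h5, h6 c (by rw [mem_suc]; exact Or.inl hca1), v, F, x, hx, hv⟩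
  · have hA' : ∀ b, Act q5 K b → Sub b c' := by
      intro b hb
      by_cases h7 : E b (suc a1)
      · exact hlast b (hCF.oldA hq3 h5P h35 hcol3 h7 hb)
      · exact absurd ⟨b, hb, h7⟩ hA
    have hc'4 : E c' (suc a4) := by
      rw [mem_suc]
      exact Or.inl (hsub4 c' hc')
    obtain ⟨q', hq', h5q', hact'⟩ := hR M w Z I a4 q5 K c' hB hI hq5 hK hc'4
      (exk_up h35 hact) hA' (by
        intro v F hvF
        obtain ⟨d, u, r, h8, h9, h10, h11, h12'⟩ := hspl v F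
          (hCF.oldB hq3 h5P h35 hcol3 hc' hvF)
        obtain ⟨t, g, ht, hut⟩ := h8
        exact ⟨d, u, r, ⟨t, g, h45 _ ht, hut⟩, h9, h10, h11.trans h45, h12'⟩)
    refine ⟨q', suc a4, hCF.mem.2 ⟨_, hq'⟩, h5.trans h5q', ?_, hact'⟩
    rw [mem_suc]
    exact Or.inl (hsub4 c (by rw [mem_suc]; exact Or.inl hca1))

end SW
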