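import Pool.Agent.H93.CT.Stmts

/-!
A new active row from splitting nodes.
-/

set_option linter.unusedVariables false
set_option synthInstance.maxSize 100000

namespace SW

section
variable {M : Type} [SetStr M] [ZF M]

/-- the splitting node chosen for `z` -/
noncomputable def spr_s (w q K g z : M) : M := app g (sep (NU w) (fun u => ∀ v F : M,
  z = opair v F → ∃ d r : M, Lv q d u ∧ Sub v u ∧ Av F u ∧ Sub r q ∧ E (opair u r) K))

theorem spr_s_df (w q K g : M) : Fn1 (fun z : M => spr_s w q K g z) := by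
  unfold spr_s; infer_instance

instance {n : ℕ} {w q K g : M} {t : (Fin n → M) → M} [ht : DfT t] :
    DfT (fun v => spr_s w q K g (t v)) := (spr_s_df w q K g).comp1 ht

/-- the candidates for the new nodes above `z` in direction `m` -/
noncomputable def spr_X (w q K g t z m : M) : M := sep t (fun x =>
  Sub (spr_s w q K g z) x ∧ E (opair (dmn (spr_s w q K g z)) m) x ∧
    ∀ v F : M, z = opair v F → Av F x)

theorem spr_X_df (w q K g t : M) : Fn2 (fun z m : M => spr_X w q K g t z m) := by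
  unfold spr_X; infer_instance

instance {n : ℕ} {w q K g t : M} {t1 t2 : (Fin n → M) → M} [ht : DfT t1] [hs : DfT t2] :
    DfT (fun v => spr_X w q K g t (t1 v) (t2 v)) :=
  (spr_X_df w q K g t).comp2 ht hs

theorem spr_mem_X {w q K g t z m x : M} : E x (spr_X w q K g t z m) ↔ E x t ∧
    Sub (spr_s w q K g z) x ∧ E (opair (dmn (spr_s w q K g z)) m) x ∧
    ∀ v F : M, z = opair v F → Av F x := by
  unfold spr_X
  rw [mem_sep' inferInstance]

/-- the new nodes -/
noncomputable def spr_B (w q K g t c : M) : M := sep t (fun x => ∃ v F m : M, InB q K c v F ∧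
  E x (spr_X w q K g t (opair v F) m) ∧ x = app g (spr_X w q K g t (opair v F) m))

theorem spr_mem_B {w q K g t c x : M} : E x (spr_B w q K g t c) ↔ E x t ∧
    ∃ v F m : M, InB q K c v F ∧
  E x (spr_X w q K g t (opair v F) m) ∧ x = app g (spr_X w q K g t (opair v F) m) := by
  unfold spr_B
  rw [mem_sep' inferInstance]

/-- the splitting node exists -/
theorem spr_s_spec {w Z I a q K g c v F : M} (hCF : CFacts w Z I) (hq : Cnd w Z I a q)
    (hg : ChF (NU w) g)
    (hspl : ∃ d u r, Lv q d u ∧ Sub v u ∧ Av F u ∧ Sub r q ∧ E (opair u r) K) :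
    ∃ d r, Lv q d (spr_s w q K g (opair v F)) ∧ Sub v (spr_s w q K g (opair v F)) ∧
      Av F (spr_s w q K g (opair v F)) ∧ Sub r q ∧ E (opair (spr_s w q K g (opair v F)) r) K := by
  have hcl : Cl (fun u : M => ∀ v' F' : M,
      opair v F = opair v' F' → ∃ d r : M, Lv q d u ∧ Sub v' u ∧ Av F' u ∧ Sub r q ∧
        E (opair u r) K) := inferInstance
  have h := hg (sep (NU w) (fun u => ∀ v' F' : M,
      opair v F = opair v' F' → ∃ d r : M, Lv q d u ∧ Sub v' u ∧ Av F' u ∧ Sub r q ∧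
        E (opair u r) K)) (fun x hx => ((mem_sep' hcl).1 hx).1) (by
      obtain ⟨d, u, r, h1, h2, h3, h4, h5⟩ := hspl
      refine ⟨u, (mem_sep' hcl).2 ⟨(hCF.lvh hq h1).2.2, fun v' F' h6 => ?_⟩⟩
      rw [opair_inj] at h6
      obtain ⟨rfl, rfl⟩ := h6
      exact ⟨d, r, h1, h2, h3, h4, h5⟩)
  exact ((mem_sep' hcl).1 h).2 v F rfl

theorem spr_dm {d s m : M} (x : M) : E (opair d m) x →
    (∀ n n', E (opair d n) x → E (opair d n') x → n = n') → app x d = m := by
  intro h h'
  exact the_eq h fun z hz => h' z m hz h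

end

section
variable {M : Type} [SetStr M] [ZFC M]

/-- the new level -/
theorem spr_lev (hCB : CbFacts M) (NF : NdFacts M) {w Z I a q : M} (hCF : CFacts w Z I)
    (hq : Cnd w Z I (suc a) q) : ∃ t, LevOK (suc a) q t ∧
      ∀ c v F, E c (suc a) → Lv q c v → Fnt F → Sub F om → Av F v →
        ∃ x, E x t ∧ Sub v x ∧ Av F x := by
  have hsao : Ord (suc a) := (hCF.ht hq).2
  have haa : E a (suc a) := by simp
  have hao : Ord a := hsao.mem haa
  obtain ⟨t0, g0, h0, hc0, -, ht0, -⟩ := hCF.lev hq haa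
  have hf : Fn1 (fun z : M => the (fun x => ∃ v n : M, z = opair v n ∧
    x = ins (opair a n) v)) := by infer_instance
  have hfv : ∀ v n : M, the (fun x => ∃ v' n' : M, opair v n = opair v' n' ∧
      x = ins (opair a n') v') = ins (opair a n) v := by
    intro v n
    refine the_eq ⟨v, n, rfl, rfl⟩ ?_
    rintro z ⟨v', n', h, rfl⟩
    rw [opair_inj] at h
    obtain ⟨rfl, rfl⟩ := h
    rfl
  have ht : ∀ x, E x (sep (img (prod t0 om) (fun z : M => the (fun x => ∃ v n : M,
      z = opair v n ∧ x = ins (opair a n) v))) (fun x => Nd (suc a) x)) ↔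
      Nd (suc a) x ∧ ∃ v n, Lv q a v ∧ E n om ∧ x = ins (opair a n) v := by
    intro x
    rw [mem_sep' inferInstance, mem_img' hf]
    constructor
    · rintro ⟨⟨z, hz, rfl⟩, h⟩
      obtain ⟨v, n, hv, hn, rfl⟩ := mem_prod'.1 hz
      exact ⟨h, v, n, (ht0 v).1 hv, hn, hfv v n⟩
    · rintro ⟨h, v, n, hv, hn, hx⟩
      refine ⟨⟨opair v n, ?_, ?_⟩, h⟩
      · rw [mem_prod]
        exact ⟨(ht0 v).2 hv, hn⟩
      · rw [hfv, hx]
  set t := sep (img (prod t0 om) (fun z : M => the (fun x => ∃ v n : M,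
      z = opair v n ∧ x = ins (opair a n) v))) (fun x => Nd (suc a) x) with htd
  have hup : ∀ c v F, E c (suc a) → Lv q c v → Fnt F → Sub F om → Av F v →
        ∃ x, E x t ∧ Sub v x ∧ Av F x := by
    intro c v F hc hv hF hFo hA
    have h1 : ∃ v1, Lv q a v1 ∧ Sub v v1 ∧ Av F v1 := by
      rw [mem_suc] at hc
      rcases hc with hc | rfl
      · exact hq.2.1.2.2.2 c v a (opair t0 g0) F hv hc h0 hF hFo hA
      · exact ⟨v, hv, Sub.refl v, hA⟩
    obtain ⟨v1, hv1, hs1, hA1⟩ := h1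
    have hN1 : Nd a v1 := (hCF.lvh hq hv1).2.1
    obtain ⟨n, hn, hnF, hnv⟩ := hN1.2.2.2.2 F hF
    refine ⟨ins (opair a n) v1, (ht _).2 ⟨(NF.ext hao hN1 hn hnv).1, v1, n, hv1, hn, rfl⟩,
      fun z hz => by rw [mem_ins]; exact Or.inl (hs1 z hz), ?_⟩
    intro m x hm hx
    rw [mem_ins, opair_inj] at hx
    rcases hx with hx | ⟨-, rfl⟩
    · exact hA1 m x hm hx
    · exact hnF hm
  have hres : ∀ x, E x t → Lv q a (res x a) := by
    intro x hx
    obtain ⟨h1, v, n, hv, hn, hx'⟩ := (ht x).1 hx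
    have hN1 : Nd a v := (hCF.lvh hq hv).2.1
    have h2 := (NF.rsub h1 hN1 (by rw [hx']; intro z hz; rw [mem_ins]; exact Or.inl hz)).2
    rw [← h2]
    exact hv
  refine ⟨t, ⟨?_, fun v hv => ((ht v).1 hv).1, fun h => absurd h (suc_ne_emp a), ?_, hup⟩, hup⟩
  · refine hCB.sub (hCB.img _ hf (hCB.prod hc0 hCB.om)) ?_
    intro x hx
    rw [htd, mem_sep' inferInstance] at hx
    exact hx.1
  · intro v c hv hc
    have h1 := hres v hv
    rw [mem_suc] at hc
    rcases hc with hc | rfl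
    · have h2 := hq.2.1.2.2.1 a (res v a) c h1 hc
      rwa [NF.rr (hao.sub_of_mem hc)] at h2
    · exact h1

end

theorem ct_spr (hACF : ACFStmt) (hCBT : CBTStmt) (hNDF : NDFStmt) (hCFX : CFXStmt)
    (hROW : ROWStmt) : SPRStmt := by
  intro M _ _ w Z I a q K c hB hI hq hK hc hact hlast hspl
  have NF := hNDF M
  have hCF := hCFX M w Z I hB
  have hCB := hCBT M
  have fF := finF (M := M)
  have hsaw : E (suc a) w := (hCF.ht hq).1
  have hsao : Ord (suc a) := (hCF.ht hq).2
  have haa : E a (suc a) := by simp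
  have hao : Ord a := hsao.mem haa
  have hco : Ord c := hsao.mem hc
  obtain ⟨t, hLev, hup⟩ := spr_lev hCB NF hCF hq
  obtain ⟨g, hg⟩ := hACF M (NU w)
  obtain ⟨g2, hg2⟩ := hACF M om
  have htNU : Sub t (NU w) := by
    intro x hx
    have hN := hLev.nod x hx
    unfold NU
    rw [mem_sep' inferInstance, mem_pow]
    refine ⟨?_, suc a, hsaw, hN⟩
    intro z hz
    obtain ⟨y, n, hy, hn, rfl⟩ := hN.1 z hz
    rw [mem_prod]
    exact ⟨hB.w1.1.trans hsaw hy, hn⟩
  have hKL := hq.2.2 K hK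
  obtain ⟨hK1, hK2, hK3, hK4, hK5, hK6, hK7, hK8⟩ := hKL
  have hs : ∀ v F, InB q K c v F → ∃ d r, Lv q d (spr_s w q K g (opair v F)) ∧
      Sub v (spr_s w q K g (opair v F)) ∧ Av F (spr_s w q K g (opair v F)) ∧ Sub r q ∧
      E (opair (spr_s w q K g (opair v F)) r) K := fun v F h =>
    spr_s_spec (c := c) hCF hq hg (hspl v F h)
  set B := spr_B w q K g t c with hBd
  -- existence of new nodes
  have hV : ∀ v F e, InB q K c v F → Fnt e → ∃ x, E x B ∧ Sub v x ∧ ¬ E x e := by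
    intro v F e hvF he
    obtain ⟨d, r, h1, h2, h3, h4, h5⟩ := hs v F hvF
    set s := spr_s w q K g (opair v F) with hsd
    obtain ⟨hd, hNs, -⟩ := hCF.lvh hq h1
    obtain ⟨-, hFf, hFo, hFv⟩ := hK3 c v F hvF
    have hfd : Fn1 (fun y : M => app y d) := inferInstance
    set e' := sep (img e (fun y => app y d)) (fun m => E m om ∧ ∀ y : M, ¬ E (opair y m) s)
      with he'
    have hme' : ∀ m, E m e' ↔ (∃ y, E y e ∧ m = app y d) ∧ E m om ∧ ∀ y : M,
        ¬ E (opair y m) s := by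
      intro m
      rw [he', mem_sep' inferInstance, mem_img' hfd]
    have he'f : Fnt e' := fF.sub (fF.img _ hfd he) (fun m hm => by
      rw [he', mem_sep' inferInstance] at hm; exact hm.1)
    have he'o : Sub e' om := fun m hm => ((hme' m).1 hm).2.1
    obtain ⟨x1, hx1, hsx1, hA1⟩ := hup d s (bun F e') hd h1 (fF.bun hFf he'f)
      (fun m hm => by
        rw [mem_bun] at hm
        rcases hm with hm | hm
        · exact hFo m hm
        · exact he'o m hm)
      (fun m y hm => by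
        rw [mem_bun] at hm
        rcases hm with hm | hm
        · exact h3 m y hm
        · exact ((hme' m).1 hm).2.2 y)
    have hN1 := hLev.nod x1 hx1
    obtain ⟨m, hm⟩ := hN1.2.1 d hd
    have hmo : E m om := by
      obtain ⟨y, n, hy, hn, h6⟩ := hN1.1 _ hm
      rw [opair_inj] at h6
      rw [h6.2]
      exact hn
    have hdm : dmn s = d := NF.dm hNs
    have hX1 : E x1 (spr_X w q K g t (opair v F) m) := by
      rw [spr_mem_X, ← hsd, hdm]
      refine ⟨hx1, hsx1, hm, ?_⟩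
      intro v' F' h6
      rw [opair_inj] at h6
      obtain ⟨rfl, rfl⟩ := h6
      intro n y hn
      exact hA1 n y (by rw [mem_bun]; exact Or.inl hn)
    have hx := hg (spr_X w q K g t (opair v F) m)
      (fun y hy => htNU y (spr_mem_X.1 hy).1) ⟨x1, hX1⟩
    have hx' := spr_mem_X.1 hx
    rw [← hsd, hdm] at hx'
    refine ⟨app g (spr_X w q K g t (opair v F) m), ?_, h2.trans hx'.2.1, ?_⟩
    · rw [hBd, spr_mem_B]
      exact ⟨hx'.1, v, F, m, hvF, hx, rfl⟩
    · intro hxe
      have hNx := hLev.nod _ hx'.1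
      have h7 : app (app g (spr_X w q K g t (opair v F) m)) d = m :=
        the_eq hx'.2.2.1 fun z hz => hNx.2.2.1 d z m hz hx'.2.2.1
      refine hA1 m d ?_ hm
      rw [mem_bun]
      right
      rw [hme']
      refine ⟨⟨_, hxe, h7.symm⟩, hmo, fun y hy => ?_⟩
      have h8 := hN1.2.2.2.1 y d m (hsx1 _ hy) hm
      obtain ⟨y', n', hy', hn', h9⟩ := hNs.1 _ hy
      rw [opair_inj] at h9
      rw [← h9.1, h8] at hy'
      exact not_mem_self d hy'
  -- properties of new nodes
  have hBp : ∀ x, E x B → ∃ F m, E x t ∧ Nd (suc a) x ∧ InB q K c (res x c) F ∧ Av F x ∧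
      Sub (spr_s w q K g (opair (res x c) F)) x ∧
      E (opair (dmn (spr_s w q K g (opair (res x c) F))) m) x ∧
      x = app g (spr_X w q K g t (opair (res x c) F) m) := by
    intro x hx
    rw [hBd, spr_mem_B] at hx
    obtain ⟨hxt, v, F, m, hvF, hxX, hxg⟩ := hx
    rw [spr_mem_X] at hxX
    obtain ⟨-, h1, h2, h3⟩ := hxX
    have hN := hLev.nod x hxt
    obtain ⟨d, r, h4, h5, h6, h7, h8⟩ := hs v F hvF
    have hNv : Nd c v := (hCF.lvh hq (hK3 c v F hvF).1).2.1
    have h9 : v = res x c := (NF.rsub hN hNv (h5.trans h1)).2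
    refine ⟨F, m, hxt, hN, ?_, h3 v F rfl, ?_, ?_, ?_⟩
    · rw [← h9]; exact hvF
    · rw [← h9]; exact h1
    · rw [← h9]; exact h2
    · rw [← h9]; exact hxg
  have hFd : Fn1 (fun x : M => the (fun F : M => InB q K c (res x c) F)) := inferInstance
  have hFv : ∀ x F, InB q K c (res x c) F → the (fun F : M => InB q K c (res x c) F) = F :=
    fun x F h => the_eq h fun F' h' => hK4 c _ _ _ h' h
  have hkd : Fn1 (fun x : M => app g2 (sep om (fun k : M =>
      ¬ E k (the (fun F : M => InB q K c (res x c) F)) ∧ ∀ y : M, ¬ E (opair y k) x))) :=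
    inferInstance
  set kf : M → M := fun x : M => app g2 (sep om (fun k : M =>
      ¬ E k (the (fun F : M => InB q K c (res x c) F)) ∧ ∀ y : M, ¬ E (opair y k) x)) with hkf
  have hk : ∀ x F, E x B → InB q K c (res x c) F → E (kf x) om ∧ ¬ E (kf x) F ∧
      ∀ y, ¬ E (opair y (kf x)) x := by
    intro x F hx hF
    obtain ⟨F', m, hxt, hN, -, -, -, -, -⟩ := hBp x hx
    have hcl : Cl (fun k : M => ¬ E k (the (fun F : M => InB q K c (res x c) F)) ∧
      ∀ y : M, ¬ E (opair y k) x) := inferInstance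
    have h1 := hg2 (sep om (fun k : M =>
      ¬ E k (the (fun F : M => InB q K c (res x c) F)) ∧ ∀ y : M, ¬ E (opair y k) x))
      (fun k hk => ((mem_sep' hcl).1 hk).1) (by
        obtain ⟨n, hn, hnF, hnv⟩ := hN.2.2.2.2 F (hK3 c _ F hF).2.1
        refine ⟨n, (mem_sep' hcl).2 ⟨hn, ?_, hnv⟩⟩
        rw [hFv x F hF]
        exact hnF)
    have h2 := (mem_sep' hcl).1 h1
    simp only [hkf]
    rw [hFv x F hF] at h2 ⊢
    exact h2
  have hPd : Fn1 (fun x : M => opair x (ins (kf x)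
      (the (fun F : M => InB q K c (res x c) F)))) := by
    rw [hkf]
    infer_instance
  set X := img B (fun x : M => opair x (ins (kf x)
      (the (fun F : M => InB q K c (res x c) F)))) with hX
  have hXm : ∀ x F', E (opair x F') X ↔ E x B ∧ ∃ F, InB q K c (res x c) F ∧
      F' = ins (kf x) F := by
    intro x F'
    rw [hX, mem_img' hPd]
    constructor
    · rintro ⟨y, hy, h⟩
      rw [opair_inj] at h
      obtain ⟨rfl, h⟩ := h
      obtain ⟨F, m, -, -, hF, -, -, -, -⟩ := hBp x hy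
      rw [hFv x F hF] at h
      exact ⟨hy, F, hF, h⟩
    · rintro ⟨hx, F, hF, rfl⟩
      exact ⟨x, hx, by rw [hFv x F hF]⟩
  have hXp : ∀ z, E z X → ∃ v F, z = opair v F := by
    intro z hz
    rw [hX, mem_img' hPd] at hz
    obtain ⟨y, hy, rfl⟩ := hz
    exact ⟨_, _, rfl⟩
  have hBt : Sub B t := fun x hx => (spr_mem_B.1 hx).1
  have hXne : ∃ z, E z X := by
    obtain ⟨v, F, hvF⟩ := hact
    obtain ⟨x, hx, -, -⟩ := hV v F emp hvF fF.emp
    obtain ⟨F, m, -, -, hF, -, -, -, -⟩ := hBp x hx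
    exact ⟨_, (hXm x _).2 ⟨hx, F, hF, rfl⟩⟩
  have hsub_c : ∀ c0, Act q K c0 → E c0 c ∨ c0 = c := by
    intro c0 h
    have h0 : Ord c0 := by
      obtain ⟨v, F, x, hx, -⟩ := h
      exact hsao.mem (hCF.row hq hx).1
    exact (h0.sub_iff hco).1 (hlast c0 h)
  have hRK : RowOK (suc a) q t K X := by
    refine ⟨⟨?_, hXp⟩, ?_, ?_, ?_, ?_, ?_, fun _ _ => hXne⟩
    · exact hCB.img _ hPd (hCB.sub hLev.ctb hBt)
    · intro v F' h
      obtain ⟨hv, F, hF, rfl⟩ := (hXm v F').1 h
      obtain ⟨F2, m, hvt, hN, hF2, hA, -, -, -⟩ := hBp v hv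
      have := hK4 c _ _ _ hF hF2
      subst this
      obtain ⟨hk1, hk2, hk3⟩ := hk v F hv hF
      obtain ⟨-, h3, h4, -⟩ := hK3 c _ F hF
      refine ⟨hvt, fF.ins h3, ?_, ?_⟩
      · intro m hm
        rw [mem_ins] at hm
        rcases hm with hm | rfl
        · exact h4 m hm
        · exact hk1
      · intro m y hm
        rw [mem_ins] at hm
        rcases hm with hm | rfl
        · exact hA m y hm
        · exact hk3 y
    · intro v F F' h h'
      obtain ⟨hv, F1, hF1, rfl⟩ := (hXm v F).1 h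
      obtain ⟨-, F2, hF2, rfl⟩ := (hXm v F').1 h'
      rw [hK4 c _ _ _ hF1 hF2]
    · intro c0 v F e hc0 hvF _ he
      have h1 : ∃ v1 F1, InB q K c v1 F1 ∧ Sub v v1 ∧ Sub F F1 := by
        rcases hsub_c c0 ⟨v, F, hvF⟩ with h | rfl
        · obtain ⟨v1, F1, h2, h3, h4, -, -⟩ := hK5 c0 c v F emp h hvF hact fF.emp
          exact ⟨v1, F1, h2, h3, h4⟩
        · exact ⟨v, F, hvF, Sub.refl _, Sub.refl _⟩
      obtain ⟨v1, F1, h2, h3, h4⟩ := h1
      obtain ⟨x, hx, hvx, hxe⟩ := hV v1 F1 e h2 he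
      obtain ⟨F2, m, hxt, hN, hF2, hA, -, -, -⟩ := hBp x hx
      have hNv : Nd c v1 := (hCF.lvh hq (hK3 c v1 F1 h2).1).2.1
      have h5 : v1 = res x c := (NF.rsub hN hNv hvx).2
      have h6 : InB q K c (res x c) F1 := by rw [← h5]; exact h2
      refine ⟨x, ins (kf x) F1, (hXm x _).2 ⟨hx, F1, h6, rfl⟩, h3.trans hvx,
        fun z hz => by rw [mem_ins]; exact Or.inl (h4 z hz), ?_, hxe⟩
      intro h7
      have h8 : E (kf x) F := by rw [h7, mem_ins]; exact Or.inr rfl
      exact (hk x F1 hx h6).2.1 (h4 _ h8)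
    · intro c0 v F' hc0 h ha0
      obtain ⟨hv, F, hF, -⟩ := (hXm v F').1 h
      rcases hsub_c c0 ha0 with h1 | rfl
      · obtain ⟨F2, h2⟩ := hK6 c0 c (res v c) F h1 hF ha0
        rw [NF.rr (hco.sub_of_mem h1)] at h2
        exact ⟨F2, h2⟩
      · exact ⟨F, hF⟩
    · intro x F1 x' F1' u h h' hM
      obtain ⟨hx, F, hF, -⟩ := (hXm x F1).1 h
      obtain ⟨hx', F', hF', -⟩ := (hXm x' F1').1 h'
      obtain ⟨F2, m, hxt, hN, hF2, hA, hsx, hm, hxg⟩ := hBp x hx
      obtain ⟨F2', m', hxt', hN', hF2', hA', hsx', hm', hxg'⟩ := hBp x' hx'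
      by_cases hvv : res x c = res x' c
      · have hFF : F2 = F2' := hK4 c _ _ _ hF2 (by rw [hvv]; exact hF2')
        rw [← hvv, ← hFF] at hm' hxg' hsx'
        obtain ⟨d, r, h4, h5, h6, h7, h8⟩ := hs (res x c) F2 hF2
        set s := spr_s w q K g (opair (res x c) F2) with hsd
        have hNs : Nd d s := (hCF.lvh hq h4).2.1
        have hdm : dmn s = d := NF.dm hNs
        rw [hdm] at hm hm'
        have hmm : m ≠ m' := by
          intro h9
          have hxx : x = x' := by rw [hxg, hxg', h9]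
          obtain ⟨d0, n, n', h10, h11, h12, -⟩ := hM
          rw [hxx] at h10
          exact h12 (hN'.2.2.1 d0 n n' h10 h11)
        have h13 : Mt x x' s := ⟨d, m, m', hm, hm', hmm, (NF.rsub hN hNs hsx).2,
          (NF.rsub hN' hNs hsx').2⟩
        have h14 : u = s := NF.mun hsao hsao hN hN' hM h13
        rw [h14]
        exact ⟨r, h7, h8⟩
      · have h3 := NF.mdn hsao hN hN' hc hvv hM
        exact hK7 c _ _ _ _ u hF2 hF2' h3
  have hhd : Fn1 (fun K' : M => the (fun x : M => (K' = K ∧ x = X) ∨ (K' ≠ K ∧ x = emp))) :=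
    inferInstance
  have hhK : the (fun x : M => (K = K ∧ x = X) ∨ (K ≠ K ∧ x = emp)) = X := by
    refine the_eq (Or.inl ⟨rfl, rfl⟩) ?_
    rintro z (⟨-, h⟩ | ⟨h, -⟩)
    · exact h
    · exact absurd rfl h
  have hhK' : ∀ K', K' ≠ K →
      the (fun x : M => (K' = K ∧ x = X) ∨ (K' ≠ K ∧ x = emp)) = emp := by
    intro K' hK'
    refine the_eq (Or.inr ⟨hK', rfl⟩) ?_
    rintro z (⟨h, -⟩ | ⟨-, h⟩)
    · exact absurd h hK'
    · exact h
  have hcol : Col q K := by
    obtain ⟨v, F, x, hx, -⟩ := hact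
    exact ⟨c, x, hx⟩
  obtain ⟨q', hq', hqq', -, -, hent⟩ := hROW M w Z I (suc a) q t emp
    (fun K' : M => the (fun x : M => (K' = K ∧ x = X) ∨ (K' ≠ K ∧ x = emp))) hB hI hq hhd hLev
    (fun z hz => absurd hz (not_mem_emp z)) (by
      intro K' hK' hcol'
      by_cases h : K' = K
      · subst h
        rw [hhK]
        exact hRK
      · rw [hhK' K' h]
        refine ⟨⟨hCB.fin fF.emp, fun z hz => absurd hz (not_mem_emp z)⟩,
          fun v F hv => absurd hv (not_mem_emp _), fun v F F' hv => absurd hv (not_mem_emp _),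
          ?_, fun c v F _ hv => absurd hv (not_mem_emp _),
          fun v F v' F' u hv => absurd hv (not_mem_emp _), ?_⟩
        · rintro c0 v F e - - ⟨z, hz⟩
          exact absurd hz (not_mem_emp z)
        · intro _ h2
          obtain ⟨d, hd, had, -⟩ := h2 a haa
          rw [mem_suc] at hd
          rcases hd with hd | rfl
          · exact (not_mem_cycle hd had).elim
          · exact (not_mem_self _ had).elim)
  have h1 := hent K hK hcol
  rw [hhK] at h1
  refine ⟨q', hq', hqq', ?_⟩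
  obtain ⟨z, hz⟩ := hXne
  obtain ⟨v, F, rfl⟩ := hXp z hz
  exact ⟨v, F, X, h1, hz⟩

end SW
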